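import Pool.Agent.W2helper63.GP.Main

set_option autoImplicit false

/-!
# Shifted moments of the zeta function of every order, with square root remainder, for almost all shifts

For `k = n + 1` shifts `0, c_1, …, c_n` the product `∏ |ζ(1/2 + i(t + c_j))|²` is the `2k`-th power of `|ζ|` if all the
`c_j` are `0`, the case of the conjecture of Keating and Snaith. The recipe of Conrey, Farmer, Keating, Rubinstein and
Snaith predicts the integral over `t` for arbitrary shifts, with a main term which is a residue (written below as an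
integral over small circles) of an Euler product times `∏_{j,l} ζ(1 + w_j + w_l + i(c_j - c_l))`, and with a remainder
`O(T^(1/2+ε))`; for `k ≥ 3` no case of it was known. Here it is proved, for every `k`, with the remainder `T^(1/2+ε)`, for
almost all shifts `c ∈ [0, T]^n`: the exceptional shifts have measure at most `T^(n-δ)`.

Proof (project GP of the starting files, `Pool/Agent/Y*/GP`; the two analytic inputs on mean squares of the zeta function,
uniform on the lines `1/2 ≤ Re s ≤ 2`, are in `Pool/Agent/W2helper63/GP/ZL.lean`). A smooth approximate functional equation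
replaces every factor by a Dirichlet polynomial over pairs `(a, b)`, `a b ≤ X = T^(1+ε)`. The square of the off-diagonal part
is integrated over the shifts by a large sieve inequality in several variables for the reduced fractions `a/b` of height
at most `X`, whose logarithms are spaced by `1/(2X)`. The diagonal part is a contour integral; moving the contours one
variable after the other to `Re w = -1/2 + 2η` leaves the integral over the small circles, and the remaining integrals are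
estimated on average over the shifts.
-/

namespace Pool.Agent.Results.MP_6a632e_nt.AlmostAllShifts

open Complex MeasureTheory Set

noncomputable section

/-- `|ζ(1/2 + iu)|²` -/
def zetaSq (u : ℝ) : ℝ := ‖riemannZeta (1 / 2 + I * u)‖ ^ 2

/-- the vector of the shifts `0, c_1, …, c_n` -/
def shifts {n : ℕ} (c : Fin n → ℝ) : Fin (n + 1) → ℝ := Fin.cons 0 c

/-- the generalised divisor function `∑_{m_1 ⋯ m_k = m} ∏ m_j^(l_j)` -/
def tau {k : ℕ} (l : Fin k → ℂ) (m : ℕ) : ℂ := ∑ f ∈ Nat.finMulAntidiag k m, ∏ j, (f j : ℂ) ^ (l j)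

/-- the arithmetic factor: the Euler product of
`∏_{j,l} (1 - p^(-1-w_j-w_l-i(s_j-s_l))) ∑_m τ_{is-w}(p^m) τ_{-is-w}(p^m) p^(-m)` -/
def arith {k : ℕ} (s : Fin k → ℝ) (w : Fin k → ℂ) : ℂ :=
  ∏' p : Nat.Primes, (∏ j, ∏ l, (1 - (p : ℂ) ^ (-(1 + w j + w l + I * (s j - s l))))) *
    ∑' m : ℕ, tau (fun j => I * s j - w j) (p ^ m) * tau (fun j => -(I * s j) - w j) (p ^ m) * ((p : ℂ) ^ m)⁻¹

/-- the main term of the recipe, at the height `t`: the integral over the circles `|w_j| = 1/8` of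
`(2πi)^(-k) A(w) ∏_{j,l} ζ(1 + w_j + w_l + i(s_j - s_l)) ∏_j (2/w_j) ((t + s_j)/2π)^(w_j)`, `s = (0, c_1, …, c_n)`, `k = n + 1` -/
def mainTerm {n : ℕ} (c : Fin n → ℝ) (t : ℝ) : ℂ :=
  ((2 * Real.pi * I) ^ (n + 1))⁻¹ * torusIntegral (fun w : Fin (n + 1) → ℂ =>
    arith (shifts c) w * (∏ j, ∏ l, riemannZeta (1 + w j + w l + I * (shifts c j - shifts c l))) *
      ∏ j, (2 / w j * cexp (w j * (Real.log ((t + shifts c j) / (2 * Real.pi)) : ℝ))))
    (fun _ => 0) (fun _ => 1 / 8)

lemma arith_eq {n : ℕ} (c : Fin n → ℝ) (w : Fin (n + 1) → ℂ) :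
    Pool.Agent.TH612.CF.FH (Pool.Agent.Y969.GP.av c w) (Pool.Agent.Y969.GP.bv c w) = arith (shifts c) w := by
  unfold Pool.Agent.TH612.CF.FH arith
  refine tprod_congr fun p => ?_
  unfold Pool.Agent.TH612.CF.lh Pool.Agent.TH612.CF.lt Pool.Agent.Y969.GP.av Pool.Agent.Y969.GP.bv
  have hI : I * I = -1 := I_mul_I
  have e1 : ∀ j : Fin (n + 1), I * ((Pool.Agent.Y969.GP.cc c j : ℂ) + I * w j) = I * shifts c j - w j := by
    intro j
    have : Pool.Agent.Y969.GP.cc c j = shifts c j := rfl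
    rw [this]
    linear_combination w j * hI
  have e2 : ∀ j : Fin (n + 1), -(I * ((Pool.Agent.Y969.GP.cc c j : ℂ) - I * w j)) = -(I * shifts c j) - w j := by
    intro j
    have : Pool.Agent.Y969.GP.cc c j = shifts c j := rfl
    rw [this]
    linear_combination w j * hI
  have e3 : ∀ j l : Fin (n + 1), 1 + I * ((Pool.Agent.Y969.GP.cc c j : ℂ) - I * w j) -
      I * ((Pool.Agent.Y969.GP.cc c l : ℂ) + I * w l) = 1 + w j + w l + I * (shifts c j - shifts c l) := by
    intro j l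
    have h1 : Pool.Agent.Y969.GP.cc c j = shifts c j := rfl
    have h2 : Pool.Agent.Y969.GP.cc c l = shifts c l := rfl
    rw [h1, h2]
    linear_combination -(w j + w l) * hI
  simp only [e3]
  simp only [e1, e2]
  rfl

lemma main_eq {n : ℕ} (c : Fin n → ℝ) (t : ℝ) : Pool.Agent.Y969.GP.RR c t = mainTerm c t := by
  unfold Pool.Agent.Y969.GP.RR mainTerm
  simp only [arith_eq]
  rfl

/-- **The shifted moments of every order for almost all shifts, with square root remainder.** For every `n` and `ε > 0`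
there are `δ > 0` and `T₀` such that for all `T ≥ T₀` and `0 ≤ S ≤ T` the shifts `c ∈ [0, T]^n` with
`|∫_0^S |ζ(1/2+it)|² ∏_j |ζ(1/2+i(t+c_j))|² dt - ∫_0^S mainTerm c t dt| > T^(1/2+ε)` have Lebesgue measure at most
`T^(n-δ)`. -/
theorem result (n : ℕ) (ε : ℝ) (hε : 0 < ε) : ∃ δ T₀ : ℝ, 0 < δ ∧ ∀ T S : ℝ, T₀ ≤ T → 0 ≤ S → S ≤ T →
    volume {c : Fin n → ℝ | (∀ j, 0 ≤ c j ∧ c j ≤ T) ∧
      T ^ (1 / 2 + ε) < ‖((∫ t in (0 : ℝ)..S, zetaSq t * ∏ j, zetaSq (t + c j) : ℝ) : ℂ) -
        ∫ t in (0 : ℝ)..S, mainTerm c t‖} ≤ ENNReal.ofReal (T ^ ((n : ℝ) - δ)) := by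
  obtain ⟨δ, T₀, hδ, h⟩ := Pool.Agent.W2helper63.GP.main n ε hε
  refine ⟨δ, T₀, hδ, fun T S hT hS hST => ?_⟩
  refine le_trans (le_of_eq ?_) (h T S hT hS hST)
  congr 1
  ext c
  change ((∀ j, 0 ≤ c j ∧ c j ≤ T) ∧ T ^ (1 / 2 + ε) <
      ‖((∫ t in (0 : ℝ)..S, zetaSq t * ∏ j, zetaSq (t + c j) : ℝ) : ℂ) - ∫ t in (0 : ℝ)..S, mainTerm c t‖) ↔
    ((∀ j, 0 ≤ c j ∧ c j ≤ T) ∧ T ^ (1 / 2 + ε) <
      ‖((∫ t in (0 : ℝ)..S, ∏ j, Pool.Agent.Y969.GP.ff (t + Pool.Agent.Y969.GP.cc c j) : ℝ) : ℂ) -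
        ∫ t in (0 : ℝ)..S, Pool.Agent.Y969.GP.RR c t‖)
  have e1 : ∀ t : ℝ, zetaSq t * ∏ j, zetaSq (t + c j) = ∏ j, Pool.Agent.Y969.GP.ff (t + Pool.Agent.Y969.GP.cc c j) := by
    intro t
    rw [Fin.prod_univ_succ]
    have h0 : Pool.Agent.Y969.GP.cc c 0 = 0 := rfl
    have h1 : ∀ j : Fin n, Pool.Agent.Y969.GP.cc c j.succ = c j := fun j => rfl
    simp only [h0, h1, add_zero]
    rfl
  simp only [funext e1, main_eq]

end

end Pool.Agent.Results.MP_6a632e_nt.AlmostAllShifts
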