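import Pool.Agent.W2helper63.SX.Main

set_option autoImplicit false

/-!
# The fourth power of the zeta function against squares of its shifts, for almost all shifts

Keating and Snaith predict `∫_0^T |ζ(1/2+it)|^(2k) dt ~ a_k f_k T (log T)^(k²)`; this is known for `k = 1, 2` only. If the `2k`
factors are shifted by different amounts, then in general only the factors with equal shifts interact on the scale
`1/log T`: a point of multiplicity `m` (the factor `|ζ(1/2+i(t+c))|^(2m)`) contributes `f_m (log T)^(m²)`, and the points at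
a distance interact through `|ζ(1 + i(c - c'))|^(2 m m')` and an Euler product. Here this is proved for one point of
multiplicity `2` and `n` points of multiplicity one, `n` arbitrary, for almost all `c ∈ [0, T]^n`:

`∫_0^T |ζ(1/2+it)|^4 ∏_j |ζ(1/2+i(t+c_j))|² dt ~ (1/12) A(c) Z(c) T (log T)^(n+4)`, `f_2 = 1/12`,
`Z(c) = ∏_j |ζ(1+ic_j)|^4 ∏_{i<j} |ζ(1+i(c_i-c_j))|²`, `A(c)` an absolutely convergent Euler product,

and in the mean over `c` (in `L¹`), with the product of the local densities over the primes up to `log T` instead of `A(c) Z(c)`.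
For `n = 1` this is the sixth moment with two of its six factors shifted, for `n = 2` the eighth moment with four of them
shifted.

The proof is project SX of the starting files (`Pool/Agent/Y969/SM` and the leaves `Pool/Agent/Y*/SX`): the fourth power is
replaced by a model (a quadratic form in two short Dirichlet polynomials), the other factors by Dirichlet polynomials; the
high frequencies are removed on average over the shifts by a large sieve inequality for products of rational numbers with
a bound of Halasz and Montgomery, the low ones are evaluated by the twisted fourth moment. The parts are put together in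
`Pool/Agent/W2helper63/SX/Main.lean`; the mean squares of zeta on the lines `1/2 ≤ Re s ≤ 2`, which are used by the
replacement steps, are in `Pool/Agent/W2helper63/GP`.
-/

namespace Pool.Agent.Results.MP_6a632e_nt.FourthPowerShifts

open Complex MeasureTheory Set

noncomputable section

/-- the integral `∫_0^T |ζ(1/2+it)|^4 ∏_j |ζ(1/2+i(t+c_j))|² dt` -/
def moment {n : ℕ} (T : ℝ) (c : Fin n → ℝ) : ℝ :=
  ∫ t in (0 : ℝ)..T, ‖riemannZeta (1 / 2 + I * t)‖ ^ 4 * ∏ j, ‖riemannZeta (1 / 2 + I * (t + c j))‖ ^ 2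

/-- the local density at `p`: `(1-1/p)^(n+4)` times the mean over `θ` of
`|1 - e(θ) p^(-1/2)|^(-4) ∏_j |1 - e(θ) p^(-1/2-ic_j)|^(-2)` -/
def density {n : ℕ} (c : Fin n → ℝ) (p : ℕ) : ℝ :=
  (1 - 1 / (p : ℝ)) ^ (n + 4) * ∫ θ in (0 : ℝ)..1,
    1 / (‖1 - cexp (2 * Real.pi * I * θ) * (p : ℂ) ^ (-(1 / 2) : ℂ)‖ ^ 4 *
      ∏ j, ‖1 - cexp (2 * Real.pi * I * θ) * (p : ℂ) ^ (-(1 / 2 + I * c j))‖ ^ 2)

/-- the product of the local densities over the primes up to `y` -/
def series {n : ℕ} (y : ℝ) (c : Fin n → ℝ) : ℝ :=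
  ∏ p ∈ (Finset.range (⌊y⌋₊ + 1)).filter Nat.Prime, density c p

/-- the zeta factors `∏_j |ζ(1+ic_j)|^4 ∏_{i<j} |ζ(1+i(c_i-c_j))|²` -/
def zetas {n : ℕ} (c : Fin n → ℝ) : ℝ :=
  (∏ j, ‖riemannZeta (1 + I * c j)‖ ^ 4) *
    ∏ i, ∏ j ∈ Finset.Ioi i, ‖riemannZeta (1 + I * (c i - c j))‖ ^ 2

/-- the inverse of the Euler factor at `p` of the zeta factors -/
def euler {n : ℕ} (c : Fin n → ℝ) (p : ℕ) : ℝ :=
  (∏ j, ‖1 - (p : ℂ) ^ (-(1 + I * c j))‖ ^ 4) *
    ∏ i, ∏ j ∈ Finset.Ioi i, ‖1 - (p : ℂ) ^ (-(1 + I * (c i - c j)))‖ ^ 2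

/-- the arithmetic factor -/
def arith {n : ℕ} (c : Fin n → ℝ) : ℝ := ∏' p : Nat.Primes, density c p * euler c p

/-- **The fourth power of zeta against squares of its shifts, for almost all shifts.** For every `n`: the factors
`density c p * euler c p` of the arithmetic factor are `1 + O(1/p²)`, uniformly in `c`, and for every `ε > 0` and all large `T`
the mean over the `c ∈ [0,T]^n` of `|moment T c / (T (log T)^(n+4)) - series (log T) c / 12|` is at most `ε`, and for all
`c ∈ [0,T]^n` outside a set of measure at most `ε T^n` the ratio of `moment T c` to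
`(1/12) (arith c) (zetas c) T (log T)^(n+4)` differs from `1` by at most `ε`. -/
theorem result (n : ℕ) :
    (∃ C : ℝ, ∀ c : Fin n → ℝ, ∀ p : ℕ, p.Prime → |density c p * euler c p - 1| ≤ C / (p : ℝ) ^ 2) ∧
    ∀ ε : ℝ, 0 < ε → ∃ T₀ : ℝ, ∀ T : ℝ, T₀ ≤ T →
      IntegrableOn (fun c : Fin n → ℝ => |moment T c / (T * Real.log T ^ (n + 4)) - 1 / 12 * series (Real.log T) c|)
        {c | ∀ j, c j ∈ Icc 0 T} ∧
      ∫ c in {c : Fin n → ℝ | ∀ j, c j ∈ Icc 0 T},
        |moment T c / (T * Real.log T ^ (n + 4)) - 1 / 12 * series (Real.log T) c| ≤ ε * T ^ n ∧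
      volume {c : Fin n → ℝ | (∀ j, c j ∈ Icc 0 T) ∧
        ¬ |moment T c / (1 / 12 * arith c * zetas c * (T * Real.log T ^ (n + 4))) - 1| ≤ ε} ≤
        ENNReal.ofReal (ε * T ^ n) :=
  Pool.Agent.Y969.SM.res_gen Pool.Agent.W2helper63.SX.main Pool.Agent.W2helper63.SX.rel Pool.Agent.W2helper63.SX.aa n

end

end Pool.Agent.Results.MP_6a632e_nt.FourthPowerShifts
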