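import Pool.Agent.W2helper63.PZ.Main

set_option autoImplicit false

/-!
# Shifted moments of the zeta function of every order for almost all shifts of polylogarithmic size

The integral `∫ |ζ(1/2+it)|² ∏_j |ζ(1/2+i(t+c_j))|² dt` with `n` shifts is the moment of order `2(n+1)` if the shifts are `0`. If they are
at a distance from each other and from `0` which is large compared to `1/log T`, then it is expected to be
`A(c) ∏_j |ζ(1+ic_j)|² ∏_{i<j} |ζ(1+i(c_i-c_j))|² T (log T)^(n+1)`. This is proved for every `n` and for almost all `c ∈ [0,U]^n`,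
where `U` may be as small as a fixed power of `log T`, if `t` is restricted to the complement of a set of measure
`T (log T)^(-B)`, `B` arbitrary: the points `t` for which the mean of `|ζ|^4` over `[t, t+U]` is larger than a power of `log T` are
removed. For the full integral, this gives the lower bound with the conjectured constant for almost all `c`.

For `U = T` see `AlmostAllShifts.lean` (all `t`, power saving). The present range of `U` cannot be reached by that method: the shifts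
have to be averaged over an interval which is longer than the denominators of the fractions `a/b` in the approximate
functional equation. Here `|ζ|²` minus a Dirichlet polynomial of length `N`, a power of `log T`, is considered as an operator from
functions of `t ∈ [0,T]` to functions of `c ∈ [0,U]`, of norm at most `(T (U/N + 1))^(1/2)` up to powers of `log T`, and
the factors are replaced one at a time; the sizes of the other factors over the windows `[t, t+U]` are controlled for the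
regular points `t` only.

The proof is project PZ of the starting files (`Pool/Agent/N879/PZ`); its missing part (the comparison of the short models,
`S_LED`) is in `Pool/Agent/W2helper63/PZ/Led.lean`, and the parts are put together in `Pool/Agent/W2helper63/PZ/Main.lean`.
-/

namespace Pool.Agent.Results.MP_6a632e_nt.PolylogarithmicShifts

open Complex MeasureTheory Set

noncomputable section

/-- `|ζ(1/2+iu)|²` -/
def zetaSq (u : ℝ) : ℝ := ‖riemannZeta (1 / 2 + I * u)‖ ^ 2

/-- the points `t` for which the integral of `|ζ|^4` over `[t, t+U]` is at most `U V` -/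
def regular (U V : ℝ) : Set ℝ := {t | ∫ u in t..(t + U), zetaSq u ^ 2 ≤ U * V}

/-- the local density at `p`: `(1-1/p)^(n+1)` times the mean over `θ` of
`|1 - e(θ) p^(-1/2)|^(-2) ∏_j |1 - e(θ) p^(-1/2-ic_j)|^(-2)` -/
def density {n : ℕ} (c : Fin n → ℝ) (p : ℕ) : ℝ :=
  (1 - 1 / (p : ℝ)) ^ (n + 1) * ∫ θ in (0 : ℝ)..1,
    1 / (‖1 - cexp (2 * Real.pi * I * θ) * (p : ℂ) ^ (-(1 / 2) : ℂ)‖ ^ 2 *
      ∏ j, ‖1 - cexp (2 * Real.pi * I * θ) * (p : ℂ) ^ (-(1 / 2 + I * c j))‖ ^ 2)

/-- the zeta factors `∏_j |ζ(1+ic_j)|² ∏_{i<j} |ζ(1+i(c_i-c_j))|²` -/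
def zetas {n : ℕ} (c : Fin n → ℝ) : ℝ :=
  (∏ j, ‖riemannZeta (1 + I * c j)‖ ^ 2) *
    ∏ i, ∏ j ∈ Finset.Ioi i, ‖riemannZeta (1 + I * (c i - c j))‖ ^ 2

/-- the inverse of the Euler factor at `p` of the zeta factors -/
def euler {n : ℕ} (c : Fin n → ℝ) (p : ℕ) : ℝ :=
  (∏ j, ‖1 - (p : ℂ) ^ (-(1 + I * c j))‖ ^ 2) *
    ∏ i, ∏ j ∈ Finset.Ioi i, ‖1 - (p : ℂ) ^ (-(1 + I * (c i - c j)))‖ ^ 2

/-- the arithmetic factor -/
def arith {n : ℕ} (c : Fin n → ℝ) : ℝ := ∏' p : Nat.Primes, density c p * euler c p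

/-- the main term `A(c) Z(c) T (log T)^(n+1)` -/
def mainTerm {n : ℕ} (T : ℝ) (c : Fin n → ℝ) : ℝ := arith c * zetas c * (T * Real.log T ^ (n + 1))

lemma zetaSq_cont : Continuous zetaSq := Pool.Agent.Y969.SM.ff_cont

lemma zetaSq_nonneg (u : ℝ) : 0 ≤ zetaSq u := by unfold zetaSq; positivity

/-- **Shifted moments of every order for almost all shifts of polylogarithmic size.** The factors of the arithmetic factor are
`1 + O(1/p²)`, uniformly in `c`. For all `n`, `B` there are `C₀`, `B₀` such that for `0 < ε < 1`, `T ≥ T₀` and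
`(log T)^C₀ ≤ U ≤ T^(1/4)`: all `t ∈ [0,T]` outside a set of measure at most `T / (log T)^B` are regular (the mean of `|ζ|^4`
over `[t,t+U]` is at most `(log T)^B₀`), and for all `c ∈ [0,U]^n` outside a set of measure at most `ε U^n` the integral of
`|ζ(1/2+it)|² ∏_j |ζ(1/2+i(t+c_j))|²` over the regular `t ∈ [0,T]` is `mainTerm T c` up to a relative error `ε`, and the integral over
`[0,T]` is at least `(1-ε)` times `mainTerm T c > 0`. -/
theorem result (n B : ℕ) :
    (∃ C : ℝ, ∀ c : Fin n → ℝ, ∀ p : ℕ, p.Prime → |density c p * euler c p - 1| ≤ C / (p : ℝ) ^ 2) ∧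
    ∃ C₀ B₀ : ℕ, ∀ ε : ℝ, 0 < ε → ε < 1 → ∃ T₀ : ℝ, ∀ T U : ℝ, T₀ ≤ T → Real.log T ^ C₀ ≤ U → U ≤ T ^ (1 / 4 : ℝ) →
      volume (Icc 0 T \ regular U (Real.log T ^ B₀)) ≤ ENNReal.ofReal (T / Real.log T ^ B) ∧
      volume {c : Fin n → ℝ | (∀ j, 0 ≤ c j ∧ c j ≤ U) ∧
        ¬ (|(∫ t in regular U (Real.log T ^ B₀) ∩ Icc 0 T, zetaSq t * ∏ j, zetaSq (t + c j)) / mainTerm T c - 1| ≤ ε ∧
          0 < mainTerm T c ∧
          (1 - ε) * mainTerm T c ≤ ∫ t in (0 : ℝ)..T, zetaSq t * ∏ j, zetaSq (t + c j))} ≤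
        ENNReal.ofReal (ε * U ^ n) := by
  refine ⟨?_, ?_⟩
  · obtain ⟨C, -, hC⟩ := Pool.Agent.W2helper63.PZ.aa1 n
    exact ⟨C, fun c p hp => ((hC c).1 p hp).2⟩
  obtain ⟨C₀, B₀, h⟩ := Pool.Agent.W2helper63.PZ.main2 n B
  refine ⟨C₀, B₀, fun ε hε hε1 => ?_⟩
  obtain ⟨T₀, hT₀⟩ := Filter.eventually_atTop.1 (h ε hε)
  refine ⟨max T₀ 0, fun T U hT hU hU2 => ?_⟩
  obtain ⟨q1, q2⟩ := hT₀ T ((le_max_left _ _).trans hT) U hU hU2
  have hT0 : 0 ≤ T := (le_max_right _ _).trans hT
  refine ⟨q1, (measure_mono ?_).trans q2⟩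
  rintro c ⟨hc, hn⟩
  refine ⟨hc, fun hq => hn ?_⟩
  have hM : Pool.Agent.N879.PZ.zp1 c * Pool.Agent.N879.PZ.AA1 c * (T * Real.log T ^ (n + 1)) = mainTerm T c := by
    unfold mainTerm
    rw [mul_comm (arith c)]
    rfl
  rw [hM] at hq
  have hcont : Continuous fun t : ℝ => zetaSq t * ∏ j, zetaSq (t + c j) :=
    zetaSq_cont.mul (continuous_finsetProd _ fun j _ => zetaSq_cont.comp (by fun_prop))
  have hnn : ∀ t : ℝ, 0 ≤ zetaSq t * ∏ j, zetaSq (t + c j) := fun t =>
    mul_nonneg (zetaSq_nonneg _) (Finset.prod_nonneg fun j _ => zetaSq_nonneg _)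
  have h0 : 0 ≤ ∫ t in regular U (Real.log T ^ B₀) ∩ Icc 0 T, zetaSq t * ∏ j, zetaSq (t + c j) :=
    integral_nonneg fun t => hnn t
  have hq' : |(∫ t in regular U (Real.log T ^ B₀) ∩ Icc 0 T, zetaSq t * ∏ j, zetaSq (t + c j)) / mainTerm T c - 1| ≤ ε := hq
  obtain ⟨I0, hI0⟩ : ∃ I0 : ℝ, I0 = ∫ t in regular U (Real.log T ^ B₀) ∩ Icc 0 T, zetaSq t * ∏ j, zetaSq (t + c j) :=
    ⟨_, rfl⟩
  rw [← hI0] at h0 hq'
  have h1 := (abs_le.1 hq').1
  have hpos : 0 < mainTerm T c := by
    by_contra hcon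
    push Not at hcon
    have : I0 / mainTerm T c ≤ 0 := div_nonpos_of_nonneg_of_nonpos h0 hcon
    linarith
  refine ⟨hq, hpos, ?_⟩
  have h2 : (1 - ε) * mainTerm T c ≤ I0 := by
    rw [← le_div_iff₀ hpos]
    linarith
  refine h2.trans ?_
  rw [hI0, intervalIntegral.integral_of_le hT0, ← integral_Icc_eq_integral_Ioc]
  refine setIntegral_mono_set (hcont.integrableOn_Icc) ?_ ?_
  · exact Filter.Eventually.of_forall fun t => hnn t
  · exact Filter.Eventually.of_forall fun t ht => ht.2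

end

end Pool.Agent.Results.MP_6a632e_nt.PolylogarithmicShifts
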