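import Pool.Agent.W2helper63.PU.Main

set_option autoImplicit false

/-!
# Shifted moments of the zeta function of every order over short intervals, separate shifts

Let `k ≥ 0` and let `α_1, …, α_k, β_1, …, β_k` be `2k` separate shifts. The recipe of Conrey, Farmer, Keating, Rubinstein and
Snaith predicts the moments `∫ ∏_j ζ(1/2+i(t+α_j)) ζ(1/2-i(t+β_j)) dt` (for equal shifts: the `2k`-th moment); for shifts which are
far from each other the main term is `A(α,β) ∏_{j,l} ζ(1+i(α_j-β_l))` times the length of the interval. Here this is proved for every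
`k`, for the interval `[T, T+H]` and for almost all shifts in the cube `[0,U]^(2k)`, if `H U ≥ T (log T)^C₀`, with the relative error
`(HU/T)^(-δ)`. If `U ≥ √T`, then the whole interval is considered; the interval can be as short as `√T (log T)^C₀` for `U = √T`, and
for `H = T^(1/2+ε)` the error saves a power of `T`. If `U < √T` (the smallest case is `H = T`, `U = (log T)^C₀`), then a
subset of `[T, T+H]` of measure at most `H (HU/T)^(-δ)` is removed, the set of the `t` for which the mean of `|ζ|²` over `[t, t+U]` is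
larger than `(HU/T)^(3δ)`.

Proof (project PU of the starting files, `Pool/Agent/N879/PU`, with parts of project GS, `Pool/Agent/TH*/GS`): zeta minus a Dirichlet
polynomial of length `N`, considered as an operator from functions of `t ∈ [T,T+H]` to functions of the shift `c ∈ [0,U]`,
has the norm `(HU/N + T)^(1/2)` up to powers of `log T`; the factors are replaced one at a time, and the diagonal terms are evaluated by
contour integration, on average over the shifts. The parts are put together in `Pool/Agent/W2helper63/PU/Main.lean`.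
-/

namespace Pool.Agent.Results.MP_6a632e_nt.SeparateShiftsShortIntervals

open Complex MeasureTheory Set

noncomputable section

/-- `ζ(1/2+iu)` -/
def zeta (u : ℝ) : ℂ := riemannZeta (1 / 2 + I * u)

/-- the points `t` for which the integral of `|ζ|²` over `[t, t+U]` is at most `U V` -/
def regular (U V : ℝ) : Set ℝ := {t | ∫ u in t..(t + U), ‖zeta u‖ ^ 2 ≤ U * V}

/-- the integral of `∏_j ζ(1/2+i(t+α_j)) ζ(1/2-i(t+β_j))` over the regular `t` in `[T, T+H]`; the shifts `α_j` are `γ (inl j)`, the `β_j`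
are `γ (inr j)` -/
def moment {k : ℕ} (T H U V : ℝ) (γ : Fin k ⊕ Fin k → ℝ) : ℂ :=
  ∫ t in regular U V ∩ Icc T (T + H), (∏ j, zeta (t + γ (Sum.inl j))) * ∏ j, (starRingEnd ℂ) (zeta (t + γ (Sum.inr j)))

/-- the generalised divisor function `∑_{m_1 ⋯ m_k = m} ∏ m_j^(l_j)` -/
def tau {k : ℕ} (l : Fin k → ℂ) (m : ℕ) : ℂ := ∑ f ∈ Nat.finMulAntidiag k m, ∏ j, (f j : ℂ) ^ (l j)

/-- the arithmetic factor: the Euler product of
`∏_{j,l} (1 - p^(-1-i(α_j-β_l))) ∑_m τ_{iβ}(p^m) τ_{-iα}(p^m) p^(-m)` -/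
def arith {k : ℕ} (γ : Fin k ⊕ Fin k → ℝ) : ℂ :=
  ∏' p : Nat.Primes, (∏ j, ∏ l, (1 - (p : ℂ) ^ (-(1 + I * γ (Sum.inl j) - I * γ (Sum.inr l))))) *
    ∑' m : ℕ, tau (fun j => I * γ (Sum.inr j)) (p ^ m) * tau (fun j => -(I * γ (Sum.inl j))) (p ^ m) * ((p : ℂ) ^ m)⁻¹

/-- the main term `A(α,β) ∏_{j,l} ζ(1+i(α_j-β_l))` -/
def mainTerm {k : ℕ} (γ : Fin k ⊕ Fin k → ℝ) : ℂ :=
  arith γ * ∏ j, ∏ l, riemannZeta (1 + I * γ (Sum.inl j) - I * γ (Sum.inr l))

/-- **Shifted moments of every order over short intervals.** For every `k` there are `δ > 0`, `C₀`, `T₀` such that for `T ≥ T₀`,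
`0 < H ≤ T`, `U ≤ T` with `H U ≥ T (log T)^C₀`, and `y = (HU/T)^δ`: all `t ∈ [T,T+H]` outside a set of measure at most `H/y` are
regular (the mean of `|ζ|²` over `[t,t+U]` is at most `y³`), and all `t ∈ [T,T+H]` are regular if `U ≥ √T`; and for all
`γ ∈ [0,U]^(2k)` outside a set of measure at most `U^(2k)/y` the integral over the regular `t ∈ [T,T+H]` of
`∏_j ζ(1/2+i(t+α_j)) ζ(1/2-i(t+β_j))` is `H (mainTerm γ) + O(H/y)`, with the constant `1`. -/
theorem result (k : ℕ) : ∃ δ C₀ T₀ : ℝ, 0 < δ ∧ ∀ T H U : ℝ, T₀ ≤ T → 0 < H → H ≤ T → U ≤ T →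
    T * Real.log T ^ C₀ ≤ H * U →
    volume (Icc T (T + H) \ regular U ((H * U / T) ^ (3 * δ))) ≤ ENNReal.ofReal (H * (H * U / T) ^ (-δ)) ∧
    (T ^ (1 / 2 : ℝ) ≤ U → Icc T (T + H) ⊆ regular U ((H * U / T) ^ (3 * δ))) ∧
    volume {γ : Fin k ⊕ Fin k → ℝ | (∀ i, γ i ∈ Icc 0 U) ∧ H * (H * U / T) ^ (-δ) <
      ‖moment T H U ((H * U / T) ^ (3 * δ)) γ - H * mainTerm γ‖} ≤
      ENNReal.ofReal (U ^ (2 * k) * (H * U / T) ^ (-δ)) := by
  obtain ⟨δ, C₀, T₀, hδ, h⟩ := Pool.Agent.W2helper63.PU.main k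
  refine ⟨δ, C₀, T₀, hδ, fun T H U hT hH hHT hUT hHU => ?_⟩
  obtain ⟨q1, q2, q3⟩ := h T H U hT hH hHT hUT hHU
  refine ⟨q1, q2, ?_⟩
  rw [Pool.Agent.W2helper63.PU.mP_apply] at q3
  refine le_trans (le_of_eq ?_) q3
  congr 1
  ext γ
  have e1 : moment T H U ((H * U / T) ^ (3 * δ)) γ =
      ∫ t in Pool.Agent.N879.PU.Gu U ((H * U / T) ^ (3 * δ)) ∩ Icc T (T + H),
        ∏ i, Pool.Agent.N879.PU.fs Pool.Agent.TH612.GS.z i (t + γ i) := by
    unfold moment
    refine integral_congr_ae (Filter.Eventually.of_forall fun t => ?_)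
    change (∏ j, zeta (t + γ (Sum.inl j))) * ∏ j, (starRingEnd ℂ) (zeta (t + γ (Sum.inr j))) =
      ∏ i, Pool.Agent.N879.PU.fs Pool.Agent.TH612.GS.z i (t + γ i)
    rw [Fintype.prod_sum_type]
    rfl
  have e2 : mainTerm γ = Pool.Agent.TH612.GS.zr γ := rfl
  simp only [mem_ofPred_eq, e1, e2]

end

end Pool.Agent.Results.MP_6a632e_nt.SeparateShiftsShortIntervals
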